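/-
Row d2:SWP (helper90's Iface): replacing the maps.  Author: helper87.
-/
import Pool.Agent.helper90.DH.Iface

set_option autoImplicit false

open Filter Topology MeasureTheory

namespace Pool.Agent.helper90.DH

open Pool.Agent.helper64.D2

theorem SWP : SWP_stmt := by
  classical
  intro q m0 s σ c c' g B hq hS hcc hg y hy
  have hB : 0 ≤ B := (abs_nonneg _).trans (hg.1 0)
  have hq0 : (0 : ℝ) < q := by exact_mod_cast hq
  have h2s : (0 : ℝ) < 2 ^ s := by positivity
  have hnear : ∀ i ∈ near q c s σ y, |g (ev (c' i) y) - g (ev (c i) y)| ≤ 2 * B := by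
    intro i _
    have h1 := abs_sub (g (ev (c' i) y)) (g (ev (c i) y))
    linarith [hg.1 (ev (c' i) y), hg.1 (ev (c i) y)]
  have hfar : ∀ i ∈ Finset.range q, i ∉ near q c s σ y →
      |g (ev (c' i) y) - g (ev (c i) y)| ≤ B * (2 ^ s / 2 ^ σ) := by
    intro i hi hn
    have hcci := hcc i (Finset.mem_range.1 hi) y
    have hk : ∀ k : ℤ, 1 / 2 ^ σ < |ev (c i) y - (k : ℝ) / 2 ^ s| := by
      intro k
      by_contra hcon
      exact hn (Finset.mem_filter.2 ⟨hi, k, not_lt.1 hcon⟩)
    have hf1 := Int.floor_le (2 ^ s * ev (c i) y)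
    have hf2 := Int.lt_floor_add_one (2 ^ s * ev (c i) y)
    set k := ⌊2 ^ s * ev (c i) y⌋ with hkdef
    have hk1 := hk k
    have hk2 := hk (k + 1)
    push_cast at hk2
    have e1 : (k : ℝ) / 2 ^ s ≤ ev (c i) y := by
      rw [div_le_iff₀ h2s]; linarith
    have e2 : ev (c i) y < ((k : ℝ) + 1) / 2 ^ s := by
      rw [lt_div_iff₀ h2s]; linarith
    rw [abs_of_nonneg (by linarith)] at hk1
    rw [abs_of_neg (by linarith)] at hk2
    obtain ⟨h3, h4⟩ := abs_le.1 hcci
    have m1 : ev (c i) y ∈ cell s k := ⟨e1, e2⟩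
    have m2 : ev (c' i) y ∈ cell s k := ⟨by linarith, by linarith⟩
    calc |g (ev (c' i) y) - g (ev (c i) y)| ≤ B * 2 ^ s * |ev (c' i) y - ev (c i) y| := hg.2 k _ m2 _ m1
      _ ≤ B * 2 ^ s * (1 / 2 ^ σ) := by gcongr
      _ = B * (2 ^ s / 2 ^ σ) := by ring
  have hcard : ((near q c s σ y).card : ℝ) ≤ m0 := by exact_mod_cast hS y hy
  have hsum : (∑ i ∈ Finset.range q, |g (ev (c' i) y) - g (ev (c i) y)|) ≤
      m0 * (2 * B) + q * (B * (2 ^ s / 2 ^ σ)) := by
    have hterm : ∀ i ∈ Finset.range q, |g (ev (c' i) y) - g (ev (c i) y)| ≤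
        (if i ∈ near q c s σ y then 2 * B else 0) + B * (2 ^ s / 2 ^ σ) := by
      intro i hi
      by_cases hn : i ∈ near q c s σ y
      · rw [if_pos hn]
        have h0 : 0 ≤ B * (2 ^ s / 2 ^ σ) := by positivity
        linarith [hnear i hn]
      · rw [if_neg hn, zero_add]
        exact hfar i hi hn
    refine (Finset.sum_le_sum hterm).trans ?_
    rw [Finset.sum_add_distrib, Finset.sum_const, Finset.card_range, nsmul_eq_mul, ← Finset.sum_filter,
      Finset.sum_const, nsmul_eq_mul]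
    have hsub : (Finset.range q).filter (fun i => i ∈ near q c s σ y) ⊆ near q c s σ y := fun i hi => (Finset.mem_filter.1 hi).2
    have h5 : (((Finset.range q).filter (fun i => i ∈ near q c s σ y)).card : ℝ) ≤ m0 :=
      le_trans (by exact_mod_cast Finset.card_le_card hsub) hcard
    have h6 := mul_le_mul_of_nonneg_right h5 (by linarith : (0 : ℝ) ≤ 2 * B)
    linarith
  rw [div_le_iff₀ hq0]
  refine hsum.trans (le_of_eq ?_)
  field_simp

end Pool.Agent.helper90.DH
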