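import Pool.Agent.helper5.DH.Spec

/-!
# Project dh, part ETB: near obstacles are invisible from the base point
-/

set_option autoImplicit false

open Complex Metric Set Filter Topology MeasureTheory
open Pool.Agent.helper98.ILF Pool.Agent.helper16.Multibrot
open HY (UD T S hd UN RM VV SG Orb fz)

noncomputable section

namespace DH

theorem ETB (hPCK : PCK_stmt) (hLBV : LBV_stmt) (hBTP : BTP_stmt) : ETB_stmt := by
  obtain ⟨E, C₁, hE, hC₁, hP⟩ := hPCK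
  obtain ⟨c₀, hc₀, hL⟩ := hLBV
  have hE0 : (0 : ℝ) < (E : ℝ) := by exact_mod_cast hE
  have hC₁0 : 0 < C₁ := by linarith
  refine ⟨1 / (2 * (E : ℝ)), (C₁ / Real.sqrt c₀) ^ (1 / (E : ℝ)), by positivity,
    Real.rpow_pos_of_pos (div_pos hC₁0 (Real.sqrt_pos.2 hc₀)) _, ?_⟩
  intro n c Φ b M k p t hM hFA hAR B hB hB1 i hi
  have hTow : Tow n c Φ b := hFA.tow
  obtain ⟨hjj, hrest⟩ := hBTP n c Φ b hTow
  obtain ⟨-, hyv, hjy, -⟩ := hrest k t p hFA.mem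
  unfold REL at hi
  rw [Finset.mem_filter, Finset.mem_range] at hi
  obtain ⟨hit, hiB⟩ := hi
  have hkt : k + t - i = k + (t - i) := by omega
  rw [hkt]
  have hkl : k ≤ k + (t - i) := Nat.le_add_right _ _
  obtain ⟨hUN, hj0, -⟩ := hjj k (k + (t - i)) hkl
  obtain ⟨hxy, -⟩ := hjy k (k + (t - i)) i hkl
  set x : ℂ := yv Φ n c (k + (t - i)) p i with hx
  have hxUD : x ∈ UD := (hyv (k + (t - i)) i).1
  have hx1 : ‖x‖ < 1 := by simpa [UD] using hxUD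
  have hjUD : ‖jj Φ k (k + (t - i)) x‖ < 1 := by
    have := hUN.map hxUD
    simpa [UD] using this
  have hfar : 1 / 2 ≤ ‖jj Φ k (k + (t - i)) x‖ := by
    rw [hxy]
    have h1 := hFA.far i hit
    have h2 : (1 / 2 : ℝ) ^ M ≤ (1 / 2 : ℝ) ^ 1 :=
      pow_le_pow_of_le_one (by norm_num) (by norm_num) hM
    rw [pow_one] at h2
    linarith
  set κ : ℝ := ‖deriv (jj Φ k (k + (t - i))) 0‖ with hκ
  have hκ0 : 0 ≤ κ := norm_nonneg _
  have hPx := hP (jj Φ k (k + (t - i))) hUN hj0 x hxUD hfar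
  have hu : 1 ≤ t - i := by omega
  have hLx := hL n c Φ b hTow hAR k (t - i) hu
  have hκB : κ ≤ Real.sqrt B / Real.sqrt c₀ := by
    rw [← Real.sqrt_div hB.le]
    apply Real.le_sqrt_of_sq_le
    rw [le_div_iff₀ hc₀]
    have : c₀ * κ ^ 2 ≤ B := hLx.trans hiB.le
    linarith
  have ha0 : 0 ≤ 1 - ‖x‖ := by linarith
  have hone : (1 - ‖jj Φ k (k + (t - i)) x‖) ^ E ≤ 1 :=
    pow_le_one₀ (by linarith) (by linarith [norm_nonneg (jj Φ k (k + (t - i)) x)])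
  have hpow : (1 - ‖x‖) ^ E ≤ C₁ * (Real.sqrt B / Real.sqrt c₀) := by
    calc (1 - ‖x‖) ^ E ≤ C₁ * κ * (1 - ‖jj Φ k (k + (t - i)) x‖) ^ E := hPx
      _ ≤ C₁ * κ * 1 := mul_le_mul_of_nonneg_left hone (by positivity)
      _ = C₁ * κ := mul_one _
      _ ≤ _ := mul_le_mul_of_nonneg_left hκB hC₁0.le
  have hinv0 : 0 ≤ 1 / (E : ℝ) := by positivity
  have hroot : 1 - ‖x‖ = ((1 - ‖x‖) ^ E) ^ (1 / (E : ℝ)) := by
    rw [← Real.rpow_natCast, ← Real.rpow_mul ha0, mul_one_div_cancel hE0.ne', Real.rpow_one]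
  have hmain : 1 - ‖x‖ ≤ (C₁ * (Real.sqrt B / Real.sqrt c₀)) ^ (1 / (E : ℝ)) := by
    rw [hroot]
    exact Real.rpow_le_rpow (pow_nonneg ha0 _) hpow hinv0
  have heq : (C₁ * (Real.sqrt B / Real.sqrt c₀)) ^ (1 / (E : ℝ)) =
      (C₁ / Real.sqrt c₀) ^ (1 / (E : ℝ)) * B ^ (1 / (2 * (E : ℝ))) := by
    have h1 : C₁ * (Real.sqrt B / Real.sqrt c₀) = (C₁ / Real.sqrt c₀) * Real.sqrt B := by ring
    rw [h1, Real.mul_rpow (by positivity) (Real.sqrt_nonneg _), Real.sqrt_eq_rpow B,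
      ← Real.rpow_mul hB.le]
    congr 2
    field_simp
  rw [← heq]
  exact hmain

end DH
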