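import Pool.Agent.helper18.DH.SpecM

/-!
# Project dh: (MP_5823cb_al): MCI, the chain of commutators (helper87)
-/

set_option autoImplicit false

open Filter Topology MeasureTheory
open scoped commutatorElement

namespace Pool.Agent.helper90.DH

open Pool.Agent.helper64.D2

theorem MCI_id {M : Type*} [Group M] (R0 R R' G Q Q' : M) (h : R = G⁻¹ * (Q * Q'⁻¹) * G * R') :
    (R0 * R'⁻¹) * Q' = ⁅(R0 * R⁻¹) * G⁻¹ * (R0 * R⁻¹)⁻¹, (R0 * R⁻¹) * (Q * Q'⁻¹) * (R0 * R⁻¹)⁻¹⁆ * ((R0 * R⁻¹) * Q) := by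
  have h1 : R' = G⁻¹ * (Q * Q'⁻¹)⁻¹ * G * R := by
    rw [h]
    group
  rw [h1, commutatorElement_def]
  group

/-- MCI: the chain of commutators from `Q 0` to `R 0`. -/
theorem MCI (hSZR : SZR_stmt) (hSZC : SZC_stmt) : MCI_stmt := by
  obtain ⟨K0, hK0, H⟩ := hSZR
  obtain ⟨-, -, hmul, hinv, -⟩ := hSZC
  have hmul' : ∀ (g h : DD) (a b c : ℝ), Sz g a → Sz h b → a ≤ 1 / 8 → b ≤ 1 / 8 → a + b + 4 * a * b ≤ c → Sz (g * h) c :=
    fun g h a b c hg hh ha hb hc x => (hmul g h a b hg hh ha hb x).trans hc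
  refine ⟨1000 * K0, by linarith, ?_⟩
  intro q Y G Q R ε d L γ hq hF hε hγ hK hG hQ hR
  have hs : 0 ≤ ε + q * γ := by positivity
  set a : ℝ := K0 * (ε + q * γ) with ha
  have ha0 : 0 ≤ a := mul_nonneg (by linarith) hs
  have ha1 : 1000 * a ≤ 1 := by
    rw [ha]
    linarith
  have haa : a ^ 2 ≤ a / 1000 := by nlinarith
  obtain ⟨hQR, -⟩ := H q Y G Q R ε d L γ hq hF hε hγ (by linarith) hG hQ hR
  have hsa : ε + q * γ ≤ a := by
    rw [ha]
    nlinarith
  have hq1 : (1 : ℝ) ≤ q := by exact_mod_cast hq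
  have hεa : ε ≤ a := by
    have : 0 ≤ (q : ℝ) * γ := by positivity
    linarith
  have hγa : γ ≤ a := by nlinarith
  have hSQ : ∀ i ≤ q, Sz (Q i) a := fun i hi x => ((hQR i hi).1 x).trans hεa
  have hSR : ∀ i ≤ q, Sz (R i) a := fun i hi => (hQR i hi).2
  have hSG : ∀ i < q, Sz (G i) a := fun i hi x => (hG i hi x).trans hγa
  have hP : ∀ i ≤ q, Sz (R 0 * (R i)⁻¹) (4 * a) := fun i hi =>
    hmul' _ _ a (2 * a) _ (hSR 0 (Nat.zero_le _)) (hinv _ _ (hSR i hi) (by linarith)) (by linarith) (by linarith) (by nlinarith)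
  have hPi : ∀ i ≤ q, Sz (R 0 * (R i)⁻¹)⁻¹ (8 * a) := fun i hi x =>
    (hinv _ _ (hP i hi) (by linarith) x).trans (by linarith)
  refine ⟨fun i => (R 0 * (R i)⁻¹) * Q i, fun i => if i < q then (R 0 * (R i)⁻¹) * (G i)⁻¹ * (R 0 * (R i)⁻¹)⁻¹ else R q,
    fun i => if i < q then (R 0 * (R i)⁻¹) * (Q i * (Q (i + 1))⁻¹) * (R 0 * (R i)⁻¹)⁻¹ else R q, ?_, ?_, ?_, ?_⟩
  · show R 0 * (R 0)⁻¹ * Q 0 = Q 0
    rw [mul_inv_cancel, one_mul]
  · show R 0 * (R q)⁻¹ * Q q = R 0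
    have hQq : Q q = 1 := by
      apply Subtype.ext
      apply Equiv.ext
      intro x
      have := hQ q le_rfl x
      simp only [Finset.Ico_self, Finset.sum_empty, add_zero] at this
      exact this
    rw [hQq, hR.1, inv_one, mul_one, mul_one]
  · intro i hi
    show R 0 * (R (i + 1))⁻¹ * Q (i + 1) = ⁅(if i < q then _ else _), (if i < q then _ else _)⁆ * (R 0 * (R i)⁻¹ * Q i)
    rw [if_pos hi, if_pos hi]
    exact MCI_id (R 0) (R i) (R (i + 1)) (G i) (Q i) (Q (i + 1)) (hR.2 i hi)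
  · intro i hi
    have hb : 18 * a ≤ 1000 * K0 * (ε + q * γ) := by
      have : 1000 * K0 * (ε + q * γ) = 1000 * a := by rw [ha]; ring
      rw [this]
      linarith
    refine ⟨?_, ?_, ?_⟩
    · exact hmul' _ _ (4 * a) a _ (hP i hi) (hSQ i hi) (by linarith) (by linarith) (by nlinarith)
    · show Sz (if i < q then _ else _) _
      split_ifs with h
      · have h1 : Sz (R 0 * (R i)⁻¹ * (G i)⁻¹) (7 * a) :=
          hmul' _ _ (4 * a) (2 * a) _ (hP i hi) (hinv _ _ (hSG i h) (by linarith)) (by linarith) (by linarith) (by nlinarith)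
        exact hmul' _ _ (7 * a) (8 * a) _ h1 (hPi i hi) (by linarith) (by linarith) (by nlinarith)
      · exact fun x => (hSR q le_rfl x).trans (by linarith)
    · show Sz (if i < q then _ else _) _
      split_ifs with h
      · have h0 : Sz (Q i * (Q (i + 1))⁻¹) (4 * a) :=
          hmul' _ _ a (2 * a) _ (hSQ i hi) (hinv _ _ (hSQ (i + 1) h) (by linarith)) (by linarith) (by linarith) (by nlinarith)
        have h1 : Sz (R 0 * (R i)⁻¹ * (Q i * (Q (i + 1))⁻¹)) (9 * a) :=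
          hmul' _ _ (4 * a) (4 * a) _ (hP i hi) h0 (by linarith) (by linarith) (by nlinarith)
        exact hmul' _ _ (9 * a) (8 * a) _ h1 (hPi i hi) (by linarith) (by linarith) (by nlinarith)
      · exact fun x => (hSR q le_rfl x).trans (by linarith)

end Pool.Agent.helper90.DH
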